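import Mathlib

/-!
# MP_577ba1_lc : finite rewriting systems inside length-increasing multiplicative wqos

The statement of Q1 is false for every alphabet with at least two letters and true for every
alphabet with at most one letter.

Counterexample.  Fix a letter `a` and let `c w` be the number of occurrences of `a` in `w`.  Put
`u ≤ v` iff `u = v`, or `c u, c v ≥ 2` and `|u| < |v|`, or `c u = c v ≤ 1` and `u` is a scattered
subword of `v`.  If `P` is a finite system inside `≤` whose left sides have length at most `N`,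
then no rule of `P` can change the number of `a`s in a word in which any factor of length at most
`N` has at most one `a`, and this property of words is kept by `P`.  So the words `(a b^N)^k` form
an antichain for the derivation relation.
-/

namespace Pool.Agent.Results.MP_577ba1_lc.FiniteInside

universe u

/-- Every infinite sequence has a good pair. -/
def IsWqo {α : Type u} (R : List α → List α → Prop) : Prop :=
  ∀ f : ℕ → List α, ∃ i j : ℕ, i < j ∧ R (f i) (f j)

/-- A length-increasing multiplicative well-quasi-order on the words over `α`. -/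
structure IsLMW {α : Type u} (R : List α → List α → Prop) : Prop where
  refl : ∀ x, R x x
  trans : ∀ x y z, R x y → R y z → R x z
  mul : ∀ x y s t, R x y → R (s ++ x ++ t) (s ++ y ++ t)
  length : ∀ x y, R x y → x.length ≤ y.length
  wqo : IsWqo R

/-- One step of the production system `P`. -/
def Step {α : Type u} (P : Finset (List α × List α)) (x y : List α) : Prop :=
  ∃ r ∈ P, ∃ s t : List α, x = s ++ r.1 ++ t ∧ y = s ++ r.2 ++ t

/-- The derivation relation of the production system `P`. -/
def Derives {α : Type u} (P : Finset (List α × List α)) : List α → List α → Prop :=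
  Relation.ReflTransGen (Step P)

/-- The statement of Q1 for the alphabet `α`. -/
def HoldsFor (α : Type u) : Prop :=
  ∀ R : List α → List α → Prop, IsLMW R →
    ∃ P : Finset (List α × List α),
      (∀ r ∈ P, r.1 ≠ [] ∧ r.2 ≠ [] ∧ R r.1 r.2) ∧ IsWqo (Derives P)

/-! ### The counterexample -/

section Two

variable {α : Type u} [DecidableEq α]

/-- The order of the counterexample. -/
def Ord (a : α) (x y : List α) : Prop :=
  x = y ∨ (2 ≤ x.count a ∧ 2 ≤ y.count a ∧ x.length < y.length) ∨
    (x.count a = y.count a ∧ x.count a ≤ 1 ∧ x.Sublist y)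

theorem ord_trans (a : α) (x y z : List α) (h1 : Ord a x y) (h2 : Ord a y z) : Ord a x z := by
  rcases h1 with rfl | ⟨p1, p2, p3⟩ | ⟨p1, p2, p3⟩
  · exact h2
  · rcases h2 with rfl | ⟨q1, q2, q3⟩ | ⟨q1, q2, q3⟩
    · exact Or.inr (Or.inl ⟨p1, p2, p3⟩)
    · exact Or.inr (Or.inl ⟨p1, q2, p3.trans q3⟩)
    · omega
  · rcases h2 with rfl | ⟨q1, q2, q3⟩ | ⟨q1, q2, q3⟩
    · exact Or.inr (Or.inr ⟨p1, p2, p3⟩)
    · omega
    · exact Or.inr (Or.inr ⟨p1.trans q1, p2, p3.trans q3⟩)

theorem ord_mul (a : α) (x y s t : List α) (h : Ord a x y) :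
    Ord a (s ++ x ++ t) (s ++ y ++ t) := by
  rcases h with rfl | ⟨p1, p2, p3⟩ | ⟨p1, p2, p3⟩
  · exact Or.inl rfl
  · refine Or.inr (Or.inl ⟨?_, ?_, ?_⟩)
    · simp only [List.count_append]; omega
    · simp only [List.count_append]; omega
    · simp only [List.length_append]; omega
  · have hs : (s ++ x ++ t).Sublist (s ++ y ++ t) :=
      List.Sublist.append (List.Sublist.append (List.Sublist.refl s) p3) (List.Sublist.refl t)
    by_cases hc : (s ++ x ++ t).count a ≤ 1
    · refine Or.inr (Or.inr ⟨?_, hc, hs⟩)
      simp only [List.count_append]; omega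
    · have hl := p3.length_le
      rcases Nat.lt_or_ge x.length y.length with h | h
      · refine Or.inr (Or.inl ⟨by omega, ?_, ?_⟩)
        · simp only [List.count_append] at hc ⊢; omega
        · simp only [List.length_append]; omega
      · have := p3.eq_of_length_le h
        subst this
        exact Or.inl rfl

theorem ord_length (a : α) (x y : List α) (h : Ord a x y) : x.length ≤ y.length := by
  rcases h with rfl | ⟨p1, p2, p3⟩ | ⟨p1, p2, p3⟩
  · exact le_rfl
  · exact p3.le
  · exact p3.length_le

theorem ord_wqo [Finite α] (a : α) : IsWqo (Ord a) := by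
  intro f
  have hH : WellQuasiOrdered (fun x y : List α => x.Sublist y) := by
    have h1 : (Set.univ : Set α).PartiallyWellOrderedOn (· = ·) := by
      intro g
      obtain ⟨m, n, hmn, h⟩ := Finite.wellQuasiOrdered (α := α) (· = ·) (fun n => (g n).1)
      exact ⟨m, n, hmn, h⟩
    have h2 := Set.PartiallyWellOrderedOn.partiallyWellOrderedOn_sublistForall₂
      (· = ·) h1
    intro g
    obtain ⟨m, n, hmn, h⟩ := h2 (fun n => ⟨g n, fun x _ => Set.mem_univ x⟩)
    refine ⟨m, n, hmn, ?_⟩
    change List.SublistForall₂ (· = ·) (g m) (g n) at h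
    rw [List.sublistForall₂_iff] at h
    obtain ⟨l, hl, hl2⟩ := h
    rw [List.forall₂_eq_eq_eq] at hl
    subst hl
    exact hl2
  have : IsPreorder (List α) (fun x y : List α => x.Sublist y) :=
    { refl := fun x => List.Sublist.refl x
      trans := fun x y z h1 h2 => h1.trans h2 }
  obtain ⟨g, hg⟩ := hH.exists_monotone_subseq f
  have hc : ∀ m n, m ≤ n → (f (g m)).count a ≤ (f (g n)).count a := fun m n hmn =>
    (hg m n hmn).count_le a
  have key : ∀ m n, m < n → (f (g m)).count a = (f (g n)).count a → (f (g m)).count a ≤ 1 →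
      ∃ i j : ℕ, i < j ∧ Ord a (f i) (f j) := fun m n hmn h1 h2 =>
    ⟨g m, g n, g.lt_iff_lt.2 hmn, Or.inr (Or.inr ⟨h1, h2, hg m n hmn.le⟩)⟩
  have h01 := hc 0 1 (by omega)
  have h12 := hc 1 2 (by omega)
  have h23 := hc 2 3 (by omega)
  by_cases h2 : 2 ≤ (f (g 2)).count a
  · have hs := hg 2 3 (by omega)
    rcases Nat.lt_or_ge (f (g 2)).length (f (g 3)).length with h | h
    · exact ⟨g 2, g 3, g.lt_iff_lt.2 (by omega), Or.inr (Or.inl ⟨h2, by omega, h⟩)⟩
    · exact ⟨g 2, g 3, g.lt_iff_lt.2 (by omega), Or.inl (hs.eq_of_length_le h)⟩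
  · by_cases h0 : (f (g 0)).count a = (f (g 1)).count a
    · exact key 0 1 (by omega) h0 (by omega)
    · exact key 1 2 (by omega) (by omega) (by omega)

/-- Every factor of length at most `N` has at most one `a`. -/
def Sep (a : α) (N : ℕ) (x : List α) : Prop :=
  ∀ w, w <:+: x → w.length ≤ N → w.count a ≤ 1

theorem sep_mono (a : α) (N : ℕ) (x y : List α) (h : x.Sublist y) (hc : x.count a = y.count a)
    (hx : Sep a N x) : Sep a N y := by
  rintro w ⟨s, t, rfl⟩ hw
  rw [List.sublist_append_iff] at h
  obtain ⟨x1, x2, rfl, h1, h2⟩ := h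
  rw [List.sublist_append_iff] at h1
  obtain ⟨x3, x4, rfl, h3, h4⟩ := h1
  have e1 := h2.count_le a
  have e2 := h3.count_le a
  have e3 := h4.count_le a
  simp only [List.count_append] at hc
  have := hx x4 ⟨x3, x2, rfl⟩ (h4.length_le.trans hw)
  omega

theorem sep_cons_ne (a b : α) (hb : b ≠ a) (N : ℕ) (x : List α) (hx : Sep a N x) :
    Sep a N (b :: x) := by
  intro w hw hl
  rw [List.infix_cons_iff] at hw
  rcases hw with hw | hw
  · cases w with
    | nil => simp
    | cons d w' =>
      rw [List.cons_prefix_cons] at hw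
      obtain ⟨rfl, hw⟩ := hw
      have := hx w' hw.isInfix (by simp at hl; omega)
      rw [List.count_cons_of_ne hb]
      exact this
  · exact hx w hw hl

theorem sep_replicate (a b : α) (hb : b ≠ a) (N m : ℕ) (x : List α) (hx : Sep a N x) :
    Sep a N (List.replicate m b ++ x) := by
  induction m with
  | zero => simpa using hx
  | succ m ih => exact sep_cons_ne a b hb N _ ih

theorem sep_cons_self (a b : α) (hb : b ≠ a) (N : ℕ) (x : List α) (hx : Sep a N x) :
    Sep a N (a :: (List.replicate N b ++ x)) := by
  intro w hw hl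
  rw [List.infix_cons_iff] at hw
  rcases hw with hw | hw
  · cases w with
    | nil => simp
    | cons d w' =>
      rw [List.cons_prefix_cons] at hw
      obtain ⟨rfl, hw⟩ := hw
      have h1 : w' <+: List.replicate N b :=
        List.prefix_of_prefix_length_le hw (List.prefix_append _ _)
          (by simp at hl ⊢; omega)
      have h2 := h1.sublist.count_le d
      rw [List.count_replicate] at h2
      have h3 : (b == d) = false := by simpa using hb
      rw [List.count_cons_self]
      simp [h3] at h2
      omega
  · exact sep_replicate a b hb N N x hx w hw hl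

/-- The word `(a b^N)^k`. -/
def wd (a b : α) (N : ℕ) : ℕ → List α
  | 0 => []
  | k + 1 => a :: (List.replicate N b ++ wd a b N k)

theorem wd_count (a b : α) (hb : b ≠ a) (N k : ℕ) : (wd a b N k).count a = k := by
  induction k with
  | zero => simp [wd]
  | succ k ih =>
    rw [wd, List.count_cons_self, List.count_append, ih, List.count_replicate]
    have h3 : (b == a) = false := by simpa using hb
    simp [h3]

theorem wd_sep (a b : α) (hb : b ≠ a) (N k : ℕ) : Sep a N (wd a b N k) := by
  induction k with
  | zero =>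
    intro w hw _
    rw [wd, List.infix_nil] at hw
    subst hw
    simp
  | succ k ih => exact sep_cons_self a b hb N _ ih

theorem derives_keep (a : α) (P : Finset (List α × List α)) (hP : ∀ r ∈ P, Ord a r.1 r.2)
    (N : ℕ) (hN : ∀ r ∈ P, r.1.length ≤ N) (x y : List α) (h : Derives P x y)
    (hx : Sep a N x) : Sep a N y ∧ y.count a = x.count a := by
  induction h with
  | refl => exact ⟨hx, rfl⟩
  | tail _ hs ih =>
    obtain ⟨h1, h2⟩ := ih
    obtain ⟨r, hr, s, t, rfl, rfl⟩ := hs
    have hc : r.1.count a ≤ 1 := h1 r.1 ⟨s, t, rfl⟩ (hN r hr)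
    have hE : r.1.Sublist r.2 ∧ r.1.count a = r.2.count a := by
      rcases hP r hr with h | ⟨p1, _, _⟩ | ⟨p1, _, p3⟩
      · rw [h]; exact ⟨List.Sublist.refl _, rfl⟩
      · omega
      · exact ⟨p3, p1⟩
    have hc2 : (s ++ r.1 ++ t).count a = (s ++ r.2 ++ t).count a := by
      simp only [List.count_append]
      omega
    refine ⟨sep_mono a N _ _ ?_ hc2 h1, by omega⟩
    exact List.Sublist.append (List.Sublist.append (List.Sublist.refl s) hE.1)
      (List.Sublist.refl t)

theorem not_holds [Finite α] (a b : α) (hb : b ≠ a) : ¬ HoldsFor α := by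
  intro H
  obtain ⟨P, hP, hw⟩ := H (Ord a)
    ⟨fun x => Or.inl rfl, ord_trans a, fun x y s t h => ord_mul a x y s t h, ord_length a,
      ord_wqo a⟩
  set N : ℕ := P.sup (fun r => r.1.length) with hNdef
  have hN : ∀ r ∈ P, r.1.length ≤ N := fun r hr =>
    Finset.le_sup (f := fun r : List α × List α => r.1.length) hr
  obtain ⟨i, j, hij, hd⟩ := hw (wd a b N)
  have := (derives_keep a P (fun r hr => (hP r hr).2.2) N hN _ _ hd (wd_sep a b hb N i)).2
  rw [wd_count a b hb, wd_count a b hb] at this
  omega

end Two

/-! ### Alphabets with at most one letter -/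

theorem eq_of_length {α : Type u} [Subsingleton α] (x y : List α) (h : x.length = y.length) :
    x = y := by
  apply List.ext_getElem h
  intro n h1 h2
  exact Subsingleton.elim _ _

theorem holds_one {α : Type u} [Subsingleton α] : HoldsFor α := by
  intro R hR
  rcases isEmpty_or_nonempty α with he | ⟨⟨a⟩⟩
  · refine ⟨∅, by simp, fun f => ⟨0, 1, by omega, ?_⟩⟩
    have : f 0 = f 1 := by
      exact Subsingleton.elim _ _
    rw [this]
    exact Relation.ReflTransGen.refl
  obtain ⟨i, j, hij, hr⟩ := hR.wqo (fun n => List.replicate (n + 1) a)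
  obtain ⟨d, rfl⟩ := Nat.exists_eq_add_of_lt hij
  refine ⟨{(List.replicate (i + 1) a, List.replicate (i + d + 1 + 1) a)}, ?_, ?_⟩
  · intro r hr'
    rw [Finset.mem_singleton] at hr'
    subst hr'
    exact ⟨by simp [List.replicate_succ], by simp [List.replicate_succ], hr⟩
  set P : Finset (List α × List α) :=
    {(List.replicate (i + 1) a, List.replicate (i + d + 1 + 1) a)} with hPdef
  have step : ∀ n, i + 1 ≤ n →
      Step P (List.replicate n a) (List.replicate (n + (d + 1)) a) := by
    intro n hn
    refine ⟨_, Finset.mem_singleton_self _, List.replicate (n - (i + 1)) a, [], ?_, ?_⟩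
    · apply eq_of_length
      simp
      omega
    · apply eq_of_length
      simp
      omega
  have steps : ∀ m n, i + 1 ≤ n →
      Derives P (List.replicate n a) (List.replicate (n + m * (d + 1)) a) := by
    intro m
    induction m with
    | zero =>
      intro n _
      rw [Nat.zero_mul, Nat.add_zero]
      exact Relation.ReflTransGen.refl
    | succ m ih =>
      intro n hn
      have h1 := ih n hn
      have h2 := step (n + m * (d + 1)) (by omega)
      have h3 : n + (m + 1) * (d + 1) = n + m * (d + 1) + (d + 1) := by ring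
      rw [h3]
      exact Relation.ReflTransGen.tail h1 h2
  intro f
  let h : ℕ → (Fin (i + 1) ⊕ Fin (d + 1)) := fun k =>
    if hk : (f k).length < i + 1 then Sum.inl ⟨(f k).length, hk⟩
    else Sum.inr ⟨(f k).length % (d + 1), Nat.mod_lt _ (by omega)⟩
  obtain ⟨c, hc⟩ := Finite.exists_infinite_fiber h
  have hinf : (h ⁻¹' {c}).Infinite := Set.infinite_coe_iff.1 hc
  obtain ⟨p, hp, hmin⟩ : ∃ p ∈ h ⁻¹' {c}, ∀ q ∈ h ⁻¹' {c}, (f p).length ≤ (f q).length := by
    obtain ⟨p, hp, hmin⟩ := WellFounded.has_min (measure (fun k => (f k).length)).wf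
      (h ⁻¹' {c}) hinf.nonempty
    exact ⟨p, hp, fun q hq => Nat.le_of_not_lt (hmin q hq)⟩
  obtain ⟨q, hq, hpq⟩ := hinf.exists_gt p
  refine ⟨p, q, hpq, ?_⟩
  have hle := hmin q hq
  have hpc : h p = h q := by
    have h1 : h p = c := hp
    have h2 : h q = c := hq
    rw [h1, h2]
  by_cases hk : (f p).length < i + 1
  · have e1 : h p = Sum.inl ⟨(f p).length, hk⟩ := dif_pos hk
    by_cases hk2 : (f q).length < i + 1
    · have e2 : h q = Sum.inl ⟨(f q).length, hk2⟩ := dif_pos hk2
      rw [e1, e2] at hpc
      have e3 := Fin.mk.inj (Sum.inl.inj hpc)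
      rw [eq_of_length _ _ e3]
      exact Relation.ReflTransGen.refl
    · have e2 : h q = Sum.inr ⟨(f q).length % (d + 1), Nat.mod_lt _ (by omega)⟩ := dif_neg hk2
      rw [e1, e2] at hpc
      exact absurd hpc (by simp)
  · have hk2 : ¬ (f q).length < i + 1 := by omega
    have e1 : h p = Sum.inr ⟨(f p).length % (d + 1), Nat.mod_lt _ (by omega)⟩ := dif_neg hk
    have e2 : h q = Sum.inr ⟨(f q).length % (d + 1), Nat.mod_lt _ (by omega)⟩ := dif_neg hk2
    rw [e1, e2] at hpc
    have e3 := Fin.mk.inj (Sum.inr.inj hpc)
    obtain ⟨m, hm⟩ := (Nat.modEq_iff_dvd' hle).1 e3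
    have e4 : (f q).length = (f p).length + m * (d + 1) := by
      rw [Nat.mul_comm m]
      omega
    have e5 := steps m (f p).length (by omega)
    have e6 : f p = List.replicate (f p).length a := by
      apply eq_of_length
      simp
    have e7 : f q = List.replicate ((f p).length + m * (d + 1)) a := by
      apply eq_of_length
      simp [e4]
    rw [← e6, ← e7] at e5
    exact e5

/-- The statement of Q1 of MP_577ba1_lc holds for a finite alphabet exactly when the alphabet has
at most one letter. -/
theorem result : (∀ (α : Type u) [Fintype α], HoldsFor α ↔ Fintype.card α ≤ 1) ∧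
    ¬ ∀ (α : Type u) [Fintype α], HoldsFor α := by
  have h1 : ∀ (α : Type u) [Fintype α], HoldsFor α ↔ Fintype.card α ≤ 1 := by
    intro α _
    constructor
    · intro H
      by_contra hc
      obtain ⟨a, b, hab⟩ := Fintype.one_lt_card_iff.1 (not_le.1 hc)
      classical
      exact not_holds a b hab.symm H
    · intro hc
      have : Subsingleton α := Fintype.card_le_one_iff_subsingleton.1 hc
      exact holds_one
  refine ⟨h1, fun H => ?_⟩
  have := (h1 (ULift.{u} Bool)).1 (H _)
  rw [Fintype.card_ulift, Fintype.card_bool] at this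
  omega

end Pool.Agent.Results.MP_577ba1_lc.FiniteInside
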